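import Pool.Agent.NPC.Defs

/-!
# Languages for which a member of a fixed family of labellings can be excluded
-/

set_option autoImplicit false

namespace Pool.Agent.Helper70K1.BX

open Pool.Agent.NPC

/-- `γ` and `c` describe, for each `m`, a family of `m ^ c` labellings of `m` positions: the label
number `i` of the labelling number `k` is the value of `γ` at the code of `(m, k, i)`.

A language `L` excludes the family if for a polynomial `P` a function `e`, computable in polynomial
time, gives for each list `xs` of at least `P(n)` strings of length at most `n` the number
`e(xs) < m ^ c`, `m` the length of `xs`, of a labelling that is wrong: at some position it differs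
from the truth value of `x ∈ L`, `x` the string at this position. (The position is not given.) -/
def Excludes (γ : List Bool → Bool) (c : ℕ) (L : Set (List Bool)) : Prop :=
  ∃ (P : Polynomial ℕ) (e : List Bool → ℕ), PolyTime (fun x => bits (e x)) ∧
    ∀ (n : ℕ) (xs : List (List Bool)), (∀ x ∈ xs, x.length ≤ n) → P.eval n ≤ xs.length →
      e (bits xs) < xs.length ^ c ∧
      ∃ i < xs.length,
        ¬ (γ (bits (xs.length, e (bits xs), i)) = true ↔ xs.getD i [] ∈ L)

end Pool.Agent.Helper70K1.BX
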