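import Pool.Agent.Helper70K1.BX.Defs
import Pool.Agent.Helper70K1.PP.Main
import Pool.Agent.Helper45.LS.PolyS

/-!
# Wrong labellings: closure under reductions, languages in P
-/

set_option autoImplicit false

namespace Pool.Agent.Helper70K1.BX

open Pool.Agent.NPC
open Pool.Agent.Helper70K1.SP

/-- The family of the two constant labellings (the other labellings are constantly false). -/
def gam0 (x : List Bool) : Bool := decide (((unbits (ℕ × ℕ × ℕ) x).getD (0, 0, 0)).2.1 = 1)

theorem gam0_bits (m k i : ℕ) : gam0 (bits (m, k, i)) = decide (k = 1) := by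
  unfold gam0
  rw [unbits_bits]
  rfl

theorem polyTime_gam0 : PolyTime (fun x => [gam0 x]) := by
  refine polyTime_of_poly ?_
  have h1 : NPC.Poly (fun x : List Bool => (unbits (ℕ × ℕ × ℕ) x).getD (0, 0, 0)) :=
    NPC.Poly.optGetD poly_unbits (NPC.Poly.const _)
  have h2 : NPC.Poly (fun x : List Bool => ((unbits (ℕ × ℕ × ℕ) x).getD (0, 0, 0)).2.1) :=
    NPC.Poly.fst (NPC.Poly.snd h1)
  exact NPC.Poly.dec_eq h2 (NPC.Poly.const 1)

/-- Languages in `P` exclude the family of the two constant labellings. -/
theorem excludes_of_inP {L : Set (List Bool)} (h : InP L) : Excludes gam0 1 L := by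
  classical
  obtain ⟨V, hV, hVL⟩ := h
  set e : List Bool → ℕ := fun x =>
    if V ((((unbits (List (List Bool)) x).getD []).head?).getD []) = [true] then 0 else 1 with he
  have heP : NPC.Poly e := by
    have h1 : NPC.Poly (fun x : List Bool => (unbits (List (List Bool)) x).getD []) :=
      NPC.Poly.optGetD poly_unbits (NPC.Poly.const _)
    have h2 : NPC.Poly (fun x : List Bool => (((unbits (List (List Bool)) x).getD []).head?).getD []) :=
      NPC.Poly.optGetD (NPC.Poly.head? h1) (NPC.Poly.const _)
    have h3 : NPC.Poly (fun x : List Bool => V ((((unbits (List (List Bool)) x).getD []).head?).getD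
        [])) := (poly_of_polyTime hV).comp h2
    exact NPC.Poly.ite (NPC.Poly.dec_eq h3 (NPC.Poly.const _)) (NPC.Poly.const _)
      (NPC.Poly.const _)
  refine ⟨Polynomial.C 2, e, polyTime_of_typed (poly_bits heP), fun n xs _ hxs => ?_⟩
  rw [Polynomial.eval_C] at hxs
  cases xs with
  | nil => simp at hxs
  | cons x xs =>
    have e1 : e (bits (x :: xs)) = if V x = [true] then 0 else 1 := by
      simp only [he, unbits_bits, Option.getD_some, List.head?_cons]
    rw [e1, pow_one]
    refine ⟨?_, 0, by simp, ?_⟩
    · split_ifs <;> omega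
    · rw [gam0_bits]
      simp only [List.getD_cons_zero]
      rw [hVL x]
      split_ifs with h1
      · simp [h1]
      · simp [h1]

/-- Wrong labellings are inherited under reductions. -/
theorem Excludes.of_reduces {γ : List Bool → Bool} {c : ℕ} {K L : Set (List Bool)}
    (hK : Excludes γ c K) (h : Reduces L K) : Excludes γ c L := by
  classical
  obtain ⟨P, e, he, hP⟩ := hK
  obtain ⟨φ, hφ, hφL⟩ := h
  have hφP := poly_of_polyTime hφ
  obtain ⟨q, hq⟩ := hφP.sz_le
  have hφlen : ∀ x, (φ x).length ≤ q.eval (4 * x.length + 1) := by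
    intro x
    have h1 := length_lt_sz (φ x)
    have h2 := hq x
    have h3 := eval_mono q (sz_listBool_le x)
    omega
  have hP' : NPC.Poly (fun x : List Bool => e (bits (((unbits (List (List Bool)) x).getD []).map
      φ))) := by
    refine Pool.Agent.Helper45.LS.poly_g he (NPC.Poly.map (F := fun _ y => φ y)
      (NPC.Poly.optGetD poly_unbits (NPC.Poly.const _)) ?_)
    exact hφP.comp (NPC.Poly.snd NPC.Poly.id)
  refine ⟨P.comp (q.comp (Polynomial.C 4 * Polynomial.X + Polynomial.C 1)), fun x =>
    e (bits (((unbits (List (List Bool)) x).getD []).map φ)), polyTime_of_typed (poly_bits hP'),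
    fun n xs hxs hlen => ?_⟩
  have h1 : (P.comp (q.comp (Polynomial.C 4 * Polynomial.X + Polynomial.C 1))).eval n =
      P.eval (q.eval (4 * n + 1)) := by
    simp [Polynomial.eval_comp]
  rw [h1] at hlen
  obtain ⟨h2, i, h3, h4⟩ := hP (q.eval (4 * n + 1)) (xs.map φ) (by
    intro y hy
    obtain ⟨x, hx, rfl⟩ := List.mem_map.1 hy
    have h5 := hxs x hx
    exact (hφlen x).trans (eval_mono q (by omega))) (by rw [List.length_map]; exact hlen)
  rw [List.length_map] at h2 h3 h4
  simp only [unbits_bits, Option.getD_some]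
  refine ⟨h2, i, h3, ?_⟩
  have h5 : (xs.map φ).getD i [] ∈ K ↔ xs.getD i [] ∈ L := by
    rw [List.getD_eq_getElem _ _ (by rw [List.length_map]; exact h3), List.getElem_map,
      List.getD_eq_getElem _ _ h3]
    exact (hφL _).symm
  rw [← h5]
  exact h4

end Pool.Agent.Helper70K1.BX
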