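import Pool.Agent.Helper70K1.BX.Easy

/-!
# Wrong unions of intervals
-/

set_option autoImplicit false

namespace Pool.Agent.Helper70K1.BX

open Pool.Agent.NPC
open Pool.Agent.Helper70K1.SP

/-- A language `L` is excludable with `c` intervals if for a polynomial `P` a function `e`, computable
in polynomial time, gives for each list `xs` of at least `P(n)` strings of length at most `n` at most
`c` intervals (pairs `(a, b)`, which stand for the positions `i` with `a ≤ i < b`), such that the set
of the positions of `xs` that are in one of these intervals is not the set of the positions whose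
string is in `L`. -/
def IntervalExcludable (c : ℕ) (L : Set (List Bool)) : Prop :=
  ∃ (P : Polynomial ℕ) (e : List Bool → List (ℕ × ℕ)), PolyTime (fun x => bits (e x)) ∧
    ∀ (n : ℕ) (xs : List (List Bool)), (∀ x ∈ xs, x.length ≤ n) → P.eval n ≤ xs.length →
      (e (bits xs)).length ≤ c ∧
      ∃ i < xs.length,
        ¬ ((∃ p ∈ e (bits xs), p.1 ≤ i ∧ i < p.2) ↔ xs.getD i [] ∈ L)

/-- The number of an interval. -/
def digI (m : ℕ) (p : ℕ × ℕ) : ℕ := min p.1 m * (m + 1) + min p.2 m

/-- The number of a list of intervals. -/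
def encI (m : ℕ) : ℕ → List (ℕ × ℕ) → ℕ
  | 0, _ => 0
  | c + 1, l => digI m (l.head?.getD (0, 0)) + (m + 1) ^ 2 * encI m c l.tail

/-- The labelling with a number. -/
def labI (m : ℕ) : ℕ → ℕ → ℕ → Bool
  | 0, _, _ => false
  | c + 1, k, i => (decide (k % (m + 1) ^ 2 / (m + 1) ≤ i) &&
      decide (i < k % (m + 1) ^ 2 % (m + 1))) || labI m c (k / (m + 1) ^ 2) i

theorem digI_lt (m : ℕ) (p : ℕ × ℕ) : digI m p < (m + 1) ^ 2 := by
  unfold digI
  have h1 : min p.1 m ≤ m := min_le_right _ _
  have h2 : min p.2 m ≤ m := min_le_right _ _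
  nlinarith

theorem encI_lt (m : ℕ) : ∀ (c : ℕ) (l : List (ℕ × ℕ)), encI m c l < (m + 1) ^ (2 * c)
  | 0, _ => by simp [encI]
  | c + 1, l => by
    have h1 := digI_lt m (l.head?.getD (0, 0))
    have h2 := encI_lt m c l.tail
    rw [encI]
    have h3 : (m + 1) ^ (2 * (c + 1)) = (m + 1) ^ 2 * (m + 1) ^ (2 * c) := by ring
    rw [h3]
    calc digI m (l.head?.getD (0, 0)) + (m + 1) ^ 2 * encI m c l.tail
        < (m + 1) ^ 2 + (m + 1) ^ 2 * encI m c l.tail := by omega
      _ = (m + 1) ^ 2 * (encI m c l.tail + 1) := by ring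
      _ ≤ (m + 1) ^ 2 * (m + 1) ^ (2 * c) := Nat.mul_le_mul_left _ h2

theorem labI_encI {m i : ℕ} (hi : i < m) : ∀ (c : ℕ) (l : List (ℕ × ℕ)), l.length ≤ c →
    (labI m c (encI m c l) i = true ↔ ∃ p ∈ l, p.1 ≤ i ∧ i < p.2)
  | 0, l, hl => by
    have : l = [] := List.length_eq_zero_iff.1 (by omega)
    subst this
    simp [labI]
  | c + 1, l, hl => by
    have hB : 0 < (m + 1) ^ 2 := by positivity
    have h1 := digI_lt m (l.head?.getD (0, 0))
    have e1 : encI m (c + 1) l % (m + 1) ^ 2 = digI m (l.head?.getD (0, 0)) := by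
      rw [encI, Nat.add_mul_mod_self_left, Nat.mod_eq_of_lt h1]
    have e2 : encI m (c + 1) l / (m + 1) ^ 2 = encI m c l.tail := by
      rw [encI, Nat.add_mul_div_left _ _ hB, Nat.div_eq_of_lt h1, zero_add]
    have e3 : ∀ p : ℕ × ℕ, digI m p / (m + 1) = min p.1 m := by
      intro p
      unfold digI
      have h2 : min p.2 m < m + 1 := by omega
      rw [mul_comm, Nat.mul_add_div (by omega), Nat.div_eq_of_lt h2, add_zero]
    have e4 : ∀ p : ℕ × ℕ, digI m p % (m + 1) = min p.2 m := by
      intro p
      unfold digI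
      have h2 : min p.2 m < m + 1 := by omega
      rw [mul_comm, Nat.mul_add_mod, Nat.mod_eq_of_lt h2]
    have ih := labI_encI hi c l.tail (by rw [List.length_tail]; omega)
    rw [labI, e1, e2, e3, e4, Bool.or_eq_true, Bool.and_eq_true, decide_eq_true_eq,
      decide_eq_true_eq, ih]
    cases l with
    | nil => simp
    | cons p l =>
      simp only [List.head?_cons, Option.getD_some, List.tail_cons, List.mem_cons, exists_eq_or_imp]
      have h2 : (min p.1 m ≤ i ∧ i < min p.2 m) ↔ (p.1 ≤ i ∧ i < p.2) := by omega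
      rw [h2]

/-- The predicate of the family of the unions of at most `c` intervals. -/
def gamI (c : ℕ) (x : List Bool) : Bool :=
  labI ((unbits (ℕ × ℕ × ℕ) x).getD (0, 0, 0)).1 c ((unbits (ℕ × ℕ × ℕ) x).getD (0, 0, 0)).2.1
    ((unbits (ℕ × ℕ × ℕ) x).getD (0, 0, 0)).2.2

theorem gamI_bits (c m k i : ℕ) : gamI c (bits (m, k, i)) = labI m c k i := by
  unfold gamI
  rw [unbits_bits]
  rfl

variable {α : Type} [TEnc α]

theorem poly_labI {M i : α → ℕ} (hM : NPC.Poly M) (hi : NPC.Poly i) : ∀ (c : ℕ) {k : α → ℕ},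
    NPC.Poly k → NPC.Poly (fun x => labI (M x) c (k x) (i x))
  | 0, k, _ => NPC.Poly.const _
  | c + 1, k, hk => by
    have hB : NPC.Poly (fun x => (M x + 1) * (M x + 1)) := by fun_prop
    have hB1 : NPC.Poly (fun x => M x + 1) := by fun_prop
    have h1 := NPC.Poly.mod hk hB
    have h2 := poly_labI hM hi c (NPC.Poly.div hk hB)
    have h3 := NPC.Poly.or (NPC.Poly.and (NPC.Poly.decide_le (NPC.Poly.div h1 hB1) hi)
      (NPC.Poly.decide_lt hi (NPC.Poly.mod h1 hB1))) h2
    refine h3.congr fun x => ?_
    rw [labI, sq]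

theorem polyTime_gamI (c : ℕ) : PolyTime (fun x => [gamI c x]) := by
  refine polyTime_of_poly ?_
  have h1 : NPC.Poly (fun x : List Bool => (unbits (ℕ × ℕ × ℕ) x).getD (0, 0, 0)) :=
    NPC.Poly.optGetD poly_unbits (NPC.Poly.const _)
  exact poly_labI (NPC.Poly.fst h1) (NPC.Poly.snd (NPC.Poly.snd h1)) c
    (NPC.Poly.fst (NPC.Poly.snd h1))

theorem poly_encI {M : α → ℕ} (hM : NPC.Poly M) : ∀ (c : ℕ) {l : α → List (ℕ × ℕ)},
    NPC.Poly l → NPC.Poly (fun x => encI (M x) c (l x))
  | 0, l, _ => NPC.Poly.const _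
  | c + 1, l, hl => by
    have h1 : NPC.Poly (fun x => ((l x).head?).getD (0, 0)) :=
      NPC.Poly.optGetD (NPC.Poly.head? hl) (NPC.Poly.const _)
    have h2 := poly_encI hM c (l := fun x => (l x).tail) (by fun_prop)
    have h3 : NPC.Poly (fun x => min (((l x).head?).getD (0, 0)).1 (M x) * (M x + 1) +
        min (((l x).head?).getD (0, 0)).2 (M x) +
        (M x + 1) * (M x + 1) * encI (M x) c (l x).tail) := by
      fun_prop
    refine h3.congr fun x => ?_
    rw [encI, digI, sq]

/-- Wrong unions of intervals are wrong members of a family. -/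
theorem IntervalExcludable.excludes {c : ℕ} {L : Set (List Bool)} (h : IntervalExcludable c L) :
    Excludes (gamI c) (4 * c) L := by
  obtain ⟨P, e, he, hP⟩ := h
  have hxs : NPC.Poly (fun x : List Bool => (unbits (List (List Bool)) x).getD []) :=
    NPC.Poly.optGetD poly_unbits (NPC.Poly.const _)
  have heP : NPC.Poly e := by
    have h1 := poly_of_polyTime he
    have h2 : NPC.Poly (fun x => (unbits (List (ℕ × ℕ)) (bits (e x))).getD []) :=
      NPC.Poly.optGetD (poly_unbits.comp h1) (NPC.Poly.const _)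
    refine h2.congr fun x => ?_
    rw [unbits_bits]
    rfl
  have hE : NPC.Poly (fun x : List Bool =>
      encI ((unbits (List (List Bool)) x).getD []).length c (e x)) :=
    poly_encI (NPC.Poly.length hxs) c heP
  refine ⟨P + Polynomial.C 2, fun x =>
    encI ((unbits (List (List Bool)) x).getD []).length c (e x),
    polyTime_of_typed (poly_bits hE), fun n xs h1 h2 => ?_⟩
  rw [Polynomial.eval_add, Polynomial.eval_C] at h2
  obtain ⟨h3, i, hi, h4⟩ := hP n xs h1 (by omega)
  simp only [unbits_bits, Option.getD_some]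
  refine ⟨?_, i, hi, ?_⟩
  · refine (encI_lt _ _ _).trans_le ?_
    have h5 : xs.length + 1 ≤ xs.length ^ 2 := by nlinarith
    calc (xs.length + 1) ^ (2 * c) ≤ (xs.length ^ 2) ^ (2 * c) := Nat.pow_le_pow_left h5 _
      _ = xs.length ^ (4 * c) := by rw [← pow_mul]; congr 1; ring
  · rw [gamI_bits, labI_encI hi c _ h3]
    exact h4

/-- Languages in `P` are excludable with one interval. -/
theorem intervalExcludable_of_inP {L : Set (List Bool)} (h : InP L) : IntervalExcludable 1 L := by
  classical
  obtain ⟨V, hV, hVL⟩ := h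
  set e : List Bool → List (ℕ × ℕ) := fun x =>
    if V ((((unbits (List (List Bool)) x).getD []).head?).getD []) = [true] then [] else [(0, 1)]
    with he
  have heP : NPC.Poly e := by
    have h1 : NPC.Poly (fun x : List Bool => (unbits (List (List Bool)) x).getD []) :=
      NPC.Poly.optGetD poly_unbits (NPC.Poly.const _)
    have h2 : NPC.Poly (fun x : List Bool => (((unbits (List (List Bool)) x).getD []).head?).getD []) :=
      NPC.Poly.optGetD (NPC.Poly.head? h1) (NPC.Poly.const _)
    have h3 : NPC.Poly (fun x : List Bool => V ((((unbits (List (List Bool)) x).getD []).head?).getD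
        [])) := (poly_of_polyTime hV).comp h2
    exact NPC.Poly.ite (NPC.Poly.dec_eq h3 (NPC.Poly.const _)) (NPC.Poly.const _)
      (NPC.Poly.const _)
  refine ⟨Polynomial.C 1, e, polyTime_of_typed (poly_bits heP), fun n xs _ hxs => ?_⟩
  rw [Polynomial.eval_C] at hxs
  cases xs with
  | nil => simp at hxs
  | cons x xs =>
    have e1 : e (bits (x :: xs)) = if V x = [true] then [] else [(0, 1)] := by
      simp only [he, unbits_bits, Option.getD_some, List.head?_cons]
    rw [e1]
    refine ⟨by split_ifs <;> simp, 0, by simp, ?_⟩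
    simp only [List.getD_cons_zero]
    rw [hVL x]
    split_ifs with h1
    · simp [h1]
    · simp [h1]

/-- Wrong unions of intervals are inherited under reductions. -/
theorem IntervalExcludable.of_reduces {c : ℕ} {K L : Set (List Bool)}
    (hK : IntervalExcludable c K) (h : Reduces L K) : IntervalExcludable c L := by
  classical
  obtain ⟨P, e, he, hP⟩ := hK
  obtain ⟨φ, hφ, hφL⟩ := h
  have hφP := poly_of_polyTime hφ
  obtain ⟨q, hq⟩ := hφP.sz_le
  have hφlen : ∀ x, (φ x).length ≤ q.eval (4 * x.length + 1) := by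
    intro x
    have h1 := length_lt_sz (φ x)
    have h2 := hq x
    have h3 := eval_mono q (sz_listBool_le x)
    omega
  have hP' : NPC.Poly (fun x : List Bool => bits (e (bits
      (((unbits (List (List Bool)) x).getD []).map φ)))) := by
    refine (poly_of_polyTime he).comp (poly_bits (NPC.Poly.map (F := fun _ y => φ y)
      (NPC.Poly.optGetD poly_unbits (NPC.Poly.const _)) ?_))
    exact hφP.comp (NPC.Poly.snd NPC.Poly.id)
  refine ⟨P.comp (q.comp (Polynomial.C 4 * Polynomial.X + Polynomial.C 1)), fun x =>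
    e (bits (((unbits (List (List Bool)) x).getD []).map φ)), polyTime_of_typed hP',
    fun n xs hxs hlen => ?_⟩
  have h1 : (P.comp (q.comp (Polynomial.C 4 * Polynomial.X + Polynomial.C 1))).eval n =
      P.eval (q.eval (4 * n + 1)) := by
    simp [Polynomial.eval_comp]
  rw [h1] at hlen
  obtain ⟨h2, i, h3, h4⟩ := hP (q.eval (4 * n + 1)) (xs.map φ) (by
    intro y hy
    obtain ⟨x, hx, rfl⟩ := List.mem_map.1 hy
    have h5 := hxs x hx
    exact (hφlen x).trans (eval_mono q (by omega))) (by rw [List.length_map]; exact hlen)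
  rw [List.length_map] at h3
  simp only [unbits_bits, Option.getD_some]
  refine ⟨h2, i, h3, ?_⟩
  have h5 : (xs.map φ).getD i [] ∈ K ↔ xs.getD i [] ∈ L := by
    rw [List.getD_eq_getElem _ _ (by rw [List.length_map]; exact h3), List.getElem_map,
      List.getD_eq_getElem _ _ h3]
    exact (hφL _).symm
  rw [← h5]
  exact h4

end Pool.Agent.Helper70K1.BX
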