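import Pool.Agent.Helper70K1.BX.Defs
import Pool.Agent.Helper70K1.CT.Prune
import Pool.Agent.Helper45.LS.Main
import Pool.Agent.Helper70K1.SS.Fin

/-!
# The language of the labels of the hash values
-/

set_option autoImplicit false

namespace Pool.Agent.Helper70K1.BX

open Pool.Agent.NPC
open Pool.Agent.Helper70K1.SP hiding PN prs
open Pool.Agent.Helper70K1.PP (QryP cc)
open Pool.Agent.Helper70K1.SS
open Pool.Agent.NPC.Cnt (SharpP FP CNF satCount vars SatBy parsimonious CountP strFn strFn_bits)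
open Pool.Agent.Helper45.LS (keyN poly_keyN)

/-- Queries: an instance, a number of bits, a modulus, a field, a hash function, a position, and the
number of positions. -/
abbrev QryX := QryP × ℕ

/-- The number of the labelling. -/
def idx (c M k : ℕ) : ℕ := if k < M ^ c then k else 0

/-- The label number `i` of the labelling given by the hash values of `u`. -/
def bitX (γ : List Bool → Bool) (c : ℕ) (f : List Bool) (t u i M : ℕ) : Bool :=
  γ (bits ((M, idx c M (keyN f.length f t u), i) : ℕ × ℕ × ℕ))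

/-- The predicate of a query. -/
def rhoX (γ : List Bool → Bool) (c : ℕ) (Q : QryX) (V : ℕ) : Bool :=
  bitX γ c Q.1.2.2.2.1 Q.1.2.2.2.2.1
    (V % 2 ^ (min Q.1.2.1 (Q.1.1.m * Q.1.1.m)) % Q.1.2.2.1) Q.1.2.2.2.2.2 Q.2

/-- The language of the labels. -/
def LX (γ : List Bool → Bool) (c : ℕ) : Set (List Bool) :=
  {x | (unbits QryX x).elim false (fun Q => rhoX γ c Q (vI Q.1.1 (gL Q.1.1))) = true}

variable {γ : List Bool → Bool} {c : ℕ}

theorem mem_LX {I : Ins} (h : ∀ o ∈ I.os, o.2 < I.r.length) (hV : vI I (gI I) < 2 ^ (I.m * I.m))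
    (j q : ℕ) (f : List Bool) (t i M : ℕ) :
    bits (((I, j, q, f, t, i), M) : QryX) ∈ LX γ c ↔
      bitX γ c f t (vI I (gI I) % 2 ^ j % q) i M = true := by
  change (unbits QryX (bits (((I, j, q, f, t, i), M) : QryX))).elim false
    (fun Q => rhoX γ c Q (vI Q.1.1 (gL Q.1.1))) = true ↔ _
  rw [unbits_bits]
  simp only [Option.elim]
  rw [gL_eq h]
  unfold rhoX
  simp only
  rcases le_total j (I.m * I.m) with h2 | h2
  · rw [min_eq_left h2]
  · rw [min_eq_right h2, Nat.mod_eq_of_lt hV, Nat.mod_eq_of_lt (lt_of_lt_of_le hV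
      (Nat.pow_le_pow_right (by norm_num) h2))]

variable {α : Type} [TEnc α]

theorem poly_powc {M : α → ℕ} (hM : NPC.Poly M) : ∀ c : ℕ, NPC.Poly (fun x => M x ^ c)
  | 0 => by simpa using NPC.Poly.const (α := α) 1
  | c + 1 => by
    have h := NPC.Poly.mul (poly_powc hM c) hM
    exact h.congr fun x => (pow_succ _ _).symm

theorem poly_gam (hγ : PolyTime fun x => [γ x]) {y : α → List Bool} (hy : NPC.Poly y) :
    NPC.Poly (fun x => γ (y x)) := by
  have h1 : NPC.Poly (fun x => [γ (y x)]) := (poly_of_polyTime hγ).comp hy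
  have h2 : NPC.Poly (fun x => ([γ (y x)].head?).getD false) := by fun_prop
  exact h2.congr fun x => rfl

theorem poly_rhoX (hγ : PolyTime fun x => [γ x]) :
    NPC.Poly (fun x : QryX × ℕ => rhoX γ c x.1 x.2) := by
  unfold rhoX bitX idx
  have h1 : UPoly (fun x : QryX × ℕ => x.1.1.1.m) := uPoly_m (by fun_prop)
  have h2 : UPoly (fun x : QryX × ℕ => min x.1.1.2.1 (x.1.1.1.m * x.1.1.1.m)) :=
    UPoly.of_le (n := fun x : QryX × ℕ => x.1.1.1.m * x.1.1.1.m) (by fun_prop) (UPoly.mul h1 h1)
      fun x => min_le_right _ _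
  have h3 := poly_pow2 h2
  have hf : NPC.Poly (fun x : QryX × ℕ => x.1.1.2.2.2.1) := by fun_prop
  have hr : UPoly (fun x : QryX × ℕ => x.1.1.2.2.2.1.length) := UPoly.length hf
  have hu : NPC.Poly (fun x : QryX × ℕ =>
      x.2 % 2 ^ (min x.1.1.2.1 (x.1.1.1.m * x.1.1.1.m)) % x.1.1.2.2.1) := by fun_prop
  have hk := poly_keyN hr hf (t := fun x : QryX × ℕ => x.1.1.2.2.2.2.1) (by fun_prop) hu
  have hp := poly_powc (M := fun x : QryX × ℕ => x.1.2) (by fun_prop) c
  refine poly_gam hγ (poly_bits ?_)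
  exact NPC.Poly.pair (by fun_prop) (NPC.Poly.pair (NPC.Poly.ite (NPC.Poly.decide_lt hk hp) hk
    (NPC.Poly.const _)) (by fun_prop))

theorem countP_gLX : CountP (fun Q : QryX => gL Q.1.1) := by
  unfold gL
  refine CountP.bsum (f := fun x : QryX × List Bool => lf x.1.1.1.p x.1.1.1.F
    (fun j => (asg x.1.1.1.os x.2 (x.1.1.1.r.set x.1.1.1.i (bI x.1.1.1))).getD j 0))
    (n := fun Q : QryX => Q.1.1.os.length) (CountP.ofPoly ?_)
    (UPoly.length (poly_os (NPC.Poly.fst (NPC.Poly.fst NPC.Poly.id))))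
  have hI : NPC.Poly (fun x : QryX × List Bool => x.1.1.1) := by fun_prop
  have h1 : NPC.Poly (fun x : QryX × List Bool => x.1.1.1.r.set x.1.1.1.i (bI x.1.1.1)) :=
    poly_set (poly_r hI) (poly_i hI) (poly_bI hI)
  have h2 : NPC.Poly (fun x : QryX × List Bool =>
      asg x.1.1.1.os x.2 (x.1.1.1.r.set x.1.1.1.i (bI x.1.1.1))) :=
    poly_asg (poly_os hI) (by fun_prop) h1
  refine poly_lf (poly_p hI) (poly_F hI) ?_
  have h3 := h2.comp (f := fun x : (QryX × List Bool) × ℕ => x.1) (NPC.Poly.fst NPC.Poly.id)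
  fun_prop

/-- The language is decided with one value of a function in `#P`. -/
theorem inPSharpP_LX (hγ : PolyTime fun x => [γ x]) : InPSharpP (LX γ c) := by
  refine ⟨strFn (fun Q : QryX => gL Q.1.1), fun y =>
    [(unbits QryX (unpair y).1).elim false (fun Q => rhoX γ c Q (vI Q.1.1 (valB (unpair y).2)))],
    @CountP.sharpP _ _ cntDec _ countP_gLX, polyTime_of_poly ?_, fun x => ?_⟩
  · refine NPC.Poly.optElim (o := fun y : List Bool => unbits QryX (unpair y).1)
      (g := fun _ => false) (h := fun y (Q : QryX) => rhoX γ c Q (vI Q.1.1 (valB (unpair y).2)))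
      (poly_unbits.comp (NPC.Poly.fst poly_unpair)) (NPC.Poly.const _) ?_
    have h1 : NPC.Poly (fun x : List Bool × QryX => valB (unpair x.1).2) :=
      NPC.Poly.valBits ((NPC.Poly.snd poly_unpair).comp (NPC.Poly.fst NPC.Poly.id))
    have h2 : NPC.Poly (fun x : List Bool × QryX => vI x.2.1.1 (valB (unpair x.1).2)) :=
      poly_vI (by fun_prop) h1
    exact (poly_rhoX hγ).comp
      (f := fun x : List Bool × QryX => (x.2, vI x.2.1.1 (valB (unpair x.1).2)))
      (NPC.Poly.pair (by fun_prop) h2)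
  · simp only [unpair_pairBits, List.cons.injEq, and_true]
    change (unbits QryX x).elim false (fun Q => rhoX γ c Q (vI Q.1.1 (gL Q.1.1))) = true ↔ _
    cases hx : unbits QryX x with
    | none => simp
    | some Q =>
      simp only [Option.elim]
      have h1 : bits Q = x := bits_of_unbits hx
      rw [← h1, strFn_bits]
      have h2 : valB (gL Q.1.1).bits = gL Q.1.1 := valB_bits _
      rw [h2]

end Pool.Agent.Helper70K1.BX
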