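import Pool.Agent.Helper70K1.BX.Lang

/-!
# Wrong labellings and counting
-/

set_option autoImplicit false

namespace Pool.Agent.Helper70K1.BX

open Pool.Agent.NPC
open Pool.Agent.Helper70K1.SP hiding PN prs
open Pool.Agent.Helper70K1.PP (PN PN_eval rrP rrP_spec sz_queryP findF
  findF_spec poly_findF RB cc)
open Pool.Agent.Helper70K1.SS
open Pool.Agent.Helper70K1.CT (mem_listS2)
open Pool.Agent.H623R2.PS (poly_replicate)
open Pool.Agent.NPC.Cnt (SharpP FP CNF satCount vars SatBy parsimonious CountP strFn strFn_bits)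
open Pool.Agent.Helper45.LS (keyN listS length_listS nnS nnS_pos nnS_le le_nnS param_okS poly_listS)

/-- The bound for the lengths of the queries. -/
noncomputable def PNX : Polynomial ℕ := PN + Polynomial.C 4 * Polynomial.X + Polynomial.C 3

/-- The number of queries. -/
noncomputable def PEX (P : Polynomial ℕ) : Polynomial ℕ := P.comp PNX + PNX + Polynomial.C 1

/-- A bound for the number of labellings. -/
noncomputable def PX (P : Polynomial ℕ) (c : ℕ) : Polynomial ℕ := PEX P ^ (c + 1)

/-- The bound for the number of candidates. -/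
noncomputable def PKX (P : Polynomial ℕ) (c : ℕ) : Polynomial ℕ :=
  (Polynomial.C 4 * PX P c ^ 2 + Polynomial.C 1) ^ 4

/-- The lower bound for the modulus. -/
noncomputable def PMX (P : Polynomial ℕ) (c : ℕ) : Polynomial ℕ :=
  PKX P c * PKX P c * Polynomial.X + Polynomial.X + Polynomial.C 2

/-- The number of primes needed. -/
noncomputable def PAX (P : Polynomial ℕ) (c : ℕ) : Polynomial ℕ :=
  PMX P c + Polynomial.X + Polynomial.C 3

/-- The bound for the primes. -/
noncomputable def PDX (P : Polynomial ℕ) (c : ℕ) : Polynomial ℕ :=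
  Polynomial.C 2 * (PAX P c + Polynomial.C 4) ^ 2 + Polynomial.C 1

theorem PNX_eval (m : ℕ) : PNX.eval m = PN.eval m + 4 * m + 3 := by simp [PNX]

theorem PEX_eval (P : Polynomial ℕ) (m : ℕ) :
    (PEX P).eval m = P.eval (PNX.eval m) + PNX.eval m + 1 := by
  simp [PEX, Polynomial.eval_comp]

theorem PEX_pos (P : Polynomial ℕ) (m : ℕ) : 0 < (PEX P).eval m := by
  rw [PEX_eval]
  omega

theorem PX_eval (P : Polynomial ℕ) (c m : ℕ) : (PX P c).eval m = (PEX P).eval m ^ (c + 1) := by
  simp [PX]

theorem PX_pos (P : Polynomial ℕ) (c m : ℕ) : 0 < (PX P c).eval m := by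
  rw [PX_eval]
  exact pow_pos (PEX_pos P m) _

theorem le_PX (P : Polynomial ℕ) (c m : ℕ) : (PEX P).eval m ≤ (PX P c).eval m := by
  rw [PX_eval]
  exact Nat.le_self_pow (by omega) _

theorem pow_le_PX (P : Polynomial ℕ) (c m : ℕ) : (PEX P).eval m ^ c ≤ (PX P c).eval m := by
  rw [PX_eval]
  exact Nat.pow_le_pow_right (PEX_pos P m) (by omega)

theorem mm_le_PX (P : Polynomial ℕ) (c m : ℕ) : m * m ≤ (PX P c).eval m := by
  refine le_trans ?_ (le_PX P c m)
  rw [PEX_eval, PNX_eval, PN_eval]
  nlinarith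

/-- The candidates. -/
noncomputable def cdX (g : List Bool → ℕ) (P : Polynomial ℕ) (c : ℕ) (I : Ins) :
    List (List ℕ) :=
  ((listS g (fun j q t i => bits (((I, j, q, findF (rrP ((PX P c).eval I.m)), t, i),
      (PEX P).eval I.m) : QryX))
    ((PEX P).eval I.m) (nnS ((PX P c).eval I.m)) (rrP ((PX P c).eval I.m))
    (findF (rrP ((PX P c).eval I.m))) (I.m * I.m)).map (cf I.m)).filter
      fun cs => cs.all fun a => decide (a ≤ I.p)

theorem length_cdX_le (g : List Bool → ℕ) (P : Polynomial ℕ) (c : ℕ) (I : Ins) :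
    (cdX g P c I).length ≤ (PKX P c).eval I.m := by
  unfold cdX
  refine (List.length_filter_le _ _).trans ?_
  rw [List.length_map]
  refine (length_listS (nnS_pos _) _).trans ?_
  refine (nnS_le (PX_pos P c I.m)).trans (le_of_eq ?_)
  simp [PKX]

theorem cdX_spec (g : List Bool → ℕ) (P : Polynomial ℕ) (c : ℕ) (I : Ins) :
    ∀ cs ∈ cdX g P c I, cs.length = I.m ∧ ∀ a ∈ cs, a ≤ I.p := by
  intro cs hcs
  rw [cdX, List.mem_filter, List.mem_map, List.all_eq_true] at hcs
  obtain ⟨⟨V, _, rfl⟩, h⟩ := hcs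
  exact ⟨cf_length _ _, fun a ha => by simpa using h a ha⟩

/-- The recursive evaluation is correct, if the language is selective from lists. -/
theorem runX_correct {γ : List Bool → Bool} {c : ℕ} {P : Polynomial ℕ} {gg : List Bool → ℕ}
    (hpred : ∀ (n : ℕ) (xs : List (List Bool)), (∀ x ∈ xs, x.length ≤ n) → P.eval n ≤ xs.length →
      gg (bits xs) < xs.length ^ c ∧ ∃ i < xs.length,
        ¬ (γ (bits (xs.length, gg (bits xs), i)) = true ↔ xs.getD i [] ∈ LX γ c))
    {m p n D : ℕ} {F : List (List (Bool × ℕ))} {os0 : List Op} [hprime : Fact (p + 1).Prime]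
    (hM : (PMX P c).eval m ≤ p + 1) (hD : p < D) (hpm : p < 2 ^ m)
    (h2M : 2 * (PX P c).eval m ^ 2 < 2 ^ m) (hF : sz F ≤ m) (hos0 : sz os0 ≤ m) (hn : n < m)
    (hidx : ∀ o ∈ os0, o.2 < n) (hdeg : (F.map List.length).sum < m) :
    ((runG p D (fun r => leafN p F r) (fun _ _ u w => (u + w) % (p + 1))
      (fun os r i => cdX gg P c (List.replicate m (), p, F, os, r, i)) os0 (List.replicate n 0) : ℕ) :
        ZMod (p + 1)) = vS (leafC F) os0 (fun _ => 0) := by
  have hPM : (PMX P c).eval m = (PKX P c).eval m * (PKX P c).eval m * m + m + 2 := by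
    simp [PMX]
  have hrc := runG_correct (p := p) (D := D) (m := m) (n := n)
    (K := (PKX P c).eval m) (lv := fun r => leafN p F r)
    (cm := fun _ _ u w => (u + w) % (p + 1))
    (cd := fun os r i => cdX gg P c (List.replicate m (), p, F, os, r, i))
    (vf := vS (leafC F)) (os0 := os0) (by omega) (by omega)
    (by omega) hidx (fun r _ _ => cast_leafN p F r) ?_ ?_
    os0 (List.replicate n 0) List.suffix_rfl (by simp) (by
      intro a ha
      rw [List.eq_of_mem_replicate ha]
      exact Nat.zero_le _)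
  · rw [hrc]
    congr 1
    funext i
    unfold pt
    by_cases hi : i < n
    · rw [List.getD_eq_getElem _ _ (by simpa using hi)]
      simp
    · rw [List.getD_eq_getElem?_getD, List.getElem?_eq_none (by simpa using hi)]
      simp
  · -- the combinations
    rintro ⟨o, i⟩ os r u w hrl hra hi hu hw
    rw [cast_mod, Nat.cast_add, hu, hw]
    rfl
  · -- the candidates
    intro os r i hos hne hrl hra hi
    set I : Ins := (List.replicate m (), p, F, os, r, i) with hI
    have hIm : I.m = m := by
      change (List.replicate m ()).length = m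
      simp
    have hIp : I.p = p := rfl
    have hidx' : ∀ o ∈ I.os, o.2 < I.r.length := fun o ho => by
      change o.2 < r.length
      rw [hrl]
      exact hidx o (hos.subset ho)
    have hprime' : Fact (I.p + 1).Prime := hprime
    have hV : GoodS I (vI I (gI I)) := good_vI (by rw [hIm]; exact hpm) (by
      change i < r.length
      omega) (fun a ha => hra a ha) (by rw [hIm]; exact hdeg)
    set V := vI I (gI I) with hVdef
    refine ⟨?_, ?_, cf I.m V, ?_, hV.2.2⟩
    · have h1 := length_cdX_le gg P c I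
      rw [hIm] at h1
      exact h1
    · intro cs hcs
      have h1 := cdX_spec gg P c I cs hcs
      rw [hIm, hIp] at h1
      exact h1
    · unfold cdX
      rw [List.mem_filter, List.mem_map, List.all_eq_true]
      refine ⟨⟨V, ?_, rfl⟩, fun a ha => by simpa using hV.2.1 a ha⟩
      set M := (PEX P).eval I.m with hM'
      set M0 := (PX P c).eval I.m with hM0'
      have hM0 : 0 < M0 := PX_pos _ _ _
      have hMM : M ≤ M0 := le_PX P c I.m
      obtain ⟨hr0, hr1', hr2'⟩ := rrP_spec hM0
      obtain ⟨hfl, hz⟩ := findF_spec hr0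
      set fl := findF (rrP M0) with hfl'
      have hMm : 2 * M0 ^ 2 < 2 ^ m := by
        rw [hM0', hIm]
        exact h2M
      have hrm : rrP M0 ≤ m := Nat.size_le.2 hMm
      have hM0s : M0 ≤ M0 ^ 2 := Nat.le_self_pow (by norm_num) _
      have h1 := mem_listS2 (g := gg) (qb := fun j q t i => bits (((I, j, q, fl, t, i), M) : QryX))
        (M := M) (N := nnS M0) (r := rrP M0) (f := fl) (V := V) (μ := I.m * I.m)
        hr0 hfl hz (param_okS hM0 (mm_le_PX P c I.m)) (le_nnS _) (nnS_pos _) ?_
        (I.m * I.m) le_rfl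
      · rwa [Nat.mod_eq_of_lt hV.1] at h1
      · intro j hj q hq t ht
        have hlen : ((List.range M).map fun i' => bits (((I, j, q, fl, t, i'), M) : QryX)).length =
            M := by simp
        obtain ⟨h2, i0, hi0, h3⟩ := hpred (PNX.eval m)
          ((List.range M).map fun i' => bits (((I, j, q, fl, t, i'), M) : QryX)) (by
            intro y hy
            obtain ⟨i', hi', rfl⟩ := List.mem_map.1 hy
            rw [List.mem_range] at hi'
            rw [bits_length, sz_pair, hI]
            rw [hIm] at hj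
            have h4 := sz_queryP (i' := i') hpm (by omega : sz F ≤ m)
              ((sz_suffix hos).trans (by omega)) (by omega) hra
              (by omega : i < m) hj hrm (by omega) hq hfl ht (lt_of_lt_of_le hi' (by omega))
            have h5 : sz M ≤ 4 * m + 1 := sz_lt_two_pow (by omega)
            rw [PNX_eval]
            omega) (by
            rw [hlen, hM', PEX_eval, hIm]
            omega)
        rw [hlen] at h2 h3 hi0
        have hpw : M ^ c ≤ M0 := pow_le_PX P c I.m
        have h24 : 2 ^ rrP M0 ≤ 4 ^ rrP M0 := Nat.pow_le_pow_left (by norm_num) _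
        refine ⟨by omega, fun hcon => h3 ?_⟩
        -- membership of the queries
        rw [List.getD_eq_getElem _ _ (by rw [hlen]; exact hi0)]
        rw [List.getElem_map, List.getElem_range, mem_LX hidx' hV.1, ← hVdef]
        unfold bitX idx
        rw [hfl, hcon, if_pos h2]

theorem satCount_of_excludes {γ : List Bool → Bool} {c : ℕ} (h : Excludes γ c (LX γ c))
    {g : List Bool → CNF ℕ} (hg : NPC.Poly g) : NPC.Poly (fun x => satCount (g x)) := by
  classical
  obtain ⟨P, gg, hgg, hpred⟩ := h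
  have hrf : NPC.Poly (fun x => rf (g x)) := poly_rf hg
  have hro : NPC.Poly (fun x => ro (g x)) := poly_ro hg
  have hvl : NPC.Poly (fun x => vl (g x)) := poly_vl hg
  -- the size parameter
  have hbig : NPC.Poly (fun x : List Bool => (rf (g x), (ro (g x), vl (g x)))) := by
    fun_prop
  obtain ⟨r1, hr1⟩ := hbig.sz_le
  obtain ⟨c0, hc0⟩ := poly_lt_two_pow (PDX P c + Polynomial.C 2 * PX P c ^ 2)
  set mm : List Bool → ℕ := fun x => r1.eval (4 * x.length + 1) + 10 + c0 with hmm
  have hmmU : UPoly mm := by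
    refine UPoly.add (UPoly.add ?_ (UPoly.const 10)) (UPoly.const c0)
    exact (UPoly.add (UPoly.mul (UPoly.const 4) (UPoly.length NPC.Poly.id))
      (UPoly.const 1)).eval r1
  set WW : List Bool → List Unit := fun x => List.replicate (mm x) () with hWW
  have hWWP : NPC.Poly WW := hmmU
  set rr : List Bool → List ℕ := fun x => List.replicate (vl (g x)).length 0 with hrr
  have hrrP : NPC.Poly rr := poly_replicate (UPoly.length hvl) 0
  set RR : List Bool × ℕ → ℕ := fun z => runG z.2 ((PDX P c).eval (mm z.1))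
    (fun r => leafN z.2 (rf (g z.1)) r) (fun _ _ u w => (u + w) % (z.2 + 1))
    (fun os r i => cdX gg P c (WW z.1, z.2, rf (g z.1), os, r, i)) (ro (g z.1)) (rr z.1) with hRR
  have hRRP : NPC.Poly RR := by
    have f1 : NPC.Poly (fun x : (List Bool × ℕ) × List Op × List ℕ × ℕ => x.1.1) := by fun_prop
    have hI : NPC.Poly (fun x : (List Bool × ℕ) × List Op × List ℕ × ℕ =>
        ((WW x.1.1, x.1.2, rf (g x.1.1), x.2.1, x.2.2.1, x.2.2.2) : Ins)) := by
      have h1 := hWWP.comp f1
      have h2 := hrf.comp f1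
      fun_prop
    have hmU := uPoly_m hI
    have hMU := hmU.eval (PX P c)
    have hEU := hmU.eval (PEX P)
    have hM2U : UPoly (fun x : (List Bool × ℕ) × List Op × List ℕ × ℕ => 2 * ((PX P c).eval
        (Ins.m (WW x.1.1, x.1.2, rf (g x.1.1), x.2.1, x.2.2.1, x.2.2.2))) ^ 2) := by
      have := hMU.eval (Polynomial.C 2 * Polynomial.X ^ 2)
      simpa using this
    have hrU : UPoly (fun x : (List Bool × ℕ) × List Op × List ℕ × ℕ => rrP ((PX P c).eval
        (Ins.m (WW x.1.1, x.1.2, rf (g x.1.1), x.2.1, x.2.2.1, x.2.2.2)))) := upoly_size hM2U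
    have hRB : RB (fun x : (List Bool × ℕ) × List Op × List ℕ × ℕ => rrP ((PX P c).eval
        (Ins.m (WW x.1.1, x.1.2, rf (g x.1.1), x.2.1, x.2.2.1, x.2.2.2)))) := by
      refine ⟨hrU, UPoly.of_le (poly_pow2 hrU) (UPoly.add (UPoly.mul (UPoly.const 2) hM2U)
        (UPoly.const 1)) fun x => ?_⟩
      refine (rrP_spec (PX_pos _ _ _)).2.2.trans (le_of_eq ?_)
      ring
    have hNU : UPoly (fun x : (List Bool × ℕ) × List Op × List ℕ × ℕ => nnS ((PX P c).eval
        (Ins.m (WW x.1.1, x.1.2, rf (g x.1.1), x.2.1, x.2.2.1, x.2.2.2)))) := by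
      exact hRB.pow 4
    have hFP := poly_findF hRB.hr hRB.h1
    have hcdX : NPC.Poly (fun x : (List Bool × ℕ) × List Op × List ℕ × ℕ =>
        cdX gg P c (WW x.1.1, x.1.2, rf (g x.1.1), x.2.1, x.2.2.1, x.2.2.2)) := by
      unfold cdX
      refine NPC.Poly.filter (p := fun (x : (List Bool × ℕ) × List Op × List ℕ × ℕ) cs =>
        cs.all fun a => decide (a ≤ Ins.p (WW x.1.1, x.1.2, rf (g x.1.1), x.2.1, x.2.2.1,
          x.2.2.2)))
        (NPC.Poly.map (F := fun (x : (List Bool × ℕ) × List Op × List ℕ × ℕ) V =>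
          cf (Ins.m (WW x.1.1, x.1.2, rf (g x.1.1), x.2.1, x.2.2.1, x.2.2.2)) V) ?_ ?_) ?_
      · refine poly_listS hgg (qb := fun (x : (List Bool × ℕ) × List Op × List ℕ × ℕ) j q t i =>
          bits ((((WW x.1.1, x.1.2, rf (g x.1.1), x.2.1, x.2.2.1, x.2.2.2), j, q,
            findF (rrP ((PX P c).eval (Ins.m (WW x.1.1, x.1.2, rf (g x.1.1), x.2.1, x.2.2.1,
              x.2.2.2)))), t, i), (PEX P).eval (Ins.m (WW x.1.1, x.1.2, rf (g x.1.1), x.2.1,
              x.2.2.1, x.2.2.2))) : QryX)) ?_
          hEU hNU (fun x => nnS_pos _) hRB (UPoly.mul hmU hmU) hFP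
        refine poly_bits ?_
        have hI' := hI.comp (f := fun x : ((List Bool × ℕ) × List Op × List ℕ × ℕ) ×
          ℕ × ℕ × ℕ × ℕ => x.1) (NPC.Poly.fst NPC.Poly.id)
        have hF' := hFP.comp (f := fun x : ((List Bool × ℕ) × List Op × List ℕ × ℕ) ×
          ℕ × ℕ × ℕ × ℕ => x.1) (NPC.Poly.fst NPC.Poly.id)
        have hE' := hEU.toPoly.comp (f := fun x : ((List Bool × ℕ) × List Op × List ℕ × ℕ) ×
          ℕ × ℕ × ℕ × ℕ => x.1) (NPC.Poly.fst NPC.Poly.id)
        exact NPC.Poly.pair (NPC.Poly.pair hI' (NPC.Poly.pair (by fun_prop)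
          (NPC.Poly.pair (by fun_prop) (NPC.Poly.pair hF' (by fun_prop))))) hE'
      · exact poly_cf ((uPoly_m hI).comp (NPC.Poly.fst NPC.Poly.id)) (NPC.Poly.snd NPC.Poly.id)
      · refine NPC.Poly.all (l := fun x : ((List Bool × ℕ) × List Op × List ℕ × ℕ) × List ℕ => x.2)
          (p := fun x a => decide (a ≤ Ins.p (WW x.1.1.1, x.1.1.2, rf (g x.1.1.1), x.1.2.1,
            x.1.2.2.1, x.1.2.2.2))) (by fun_prop) ?_
        have h1 := (poly_p hI).comp (f := fun x : (((List Bool × ℕ) × List Op × List ℕ × ℕ) ×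
          List ℕ) × ℕ => x.1.1) (NPC.Poly.fst (NPC.Poly.fst NPC.Poly.id))
        exact NPC.Poly.decide_le (NPC.Poly.snd NPC.Poly.id) h1
    have h2 : NPC.Poly (fun z : List Bool × ℕ => z.2) := by fun_prop
    exact poly_runG (p := fun z : List Bool × ℕ => z.2) (D := fun z => (PDX P c).eval (mm z.1))
      (lv := fun z r => leafN z.2 (rf (g z.1)) r) (cm := fun z _ _ u w => (u + w) % (z.2 + 1))
      (cd := fun z os r i => cdX gg P c (WW z.1, z.2, rf (g z.1), os, r, i)) h2
      ((hmmU.comp (NPC.Poly.fst NPC.Poly.id)).eval (PDX P c)) hcdX (by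
        have h3 := hrf.comp (f := fun x : (List Bool × ℕ) × List ℕ => x.1.1)
          (NPC.Poly.fst (NPC.Poly.fst NPC.Poly.id))
        exact poly_leafN (p := fun x : (List Bool × ℕ) × List ℕ => x.1.2)
          (F := fun x => rf (g x.1.1)) (r := fun x => x.2) (by fun_prop) h3 (by fun_prop))
      (fun z r => leafN_le _ _ _) (by fun_prop)
      (fun z o y u w => ((Nat.mod_lt _ (Nat.succ_pos _)).le))
      (os := fun z => ro (g z.1)) (r := fun z => rr z.1)
      (hro.comp (NPC.Poly.fst NPC.Poly.id)) (hrrP.comp (NPC.Poly.fst NPC.Poly.id))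
  -- the reconstruction
  have hDU : UPoly (fun x => (PDX P c).eval (mm x)) := hmmU.eval (PDX P c)
  have hMU' : UPoly (fun x => (PMX P c).eval (mm x)) := hmmU.eval (PMX P c)
  have hprs : NPC.Poly (fun x => prs ((PMX P c).eval (mm x)) ((PDX P c).eval (mm x))) := by
    unfold prs
    refine NPC.Poly.filter (p := fun x q => decide ((PMX P c).eval (mm x) < q) &&
      primeN ((PDX P c).eval (mm x)) q) hDU.range ?_
    have h1 : NPC.Poly (fun x : List Bool × ℕ => primeN ((PDX P c).eval (mm x.1)) x.2) :=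
      poly_primeN (hDU.comp (NPC.Poly.fst NPC.Poly.id)) (NPC.Poly.snd NPC.Poly.id)
    have h2 : NPC.Poly (fun x : List Bool × ℕ => (PMX P c).eval (mm x.1)) :=
      hMU'.toPoly.comp (NPC.Poly.fst NPC.Poly.id)
    fun_prop
  have hfin : NPC.Poly (fun x => crt ((PDX P c).eval (mm x)) (2 ^ (vl (g x)).length + 1)
      ((prs ((PMX P c).eval (mm x)) ((PDX P c).eval (mm x))).map fun q => (q, RR (x, q - 1) % q))) := by
    refine poly_crt hDU ?_ (NPC.Poly.map (F := fun x q => (q, RR (x, q - 1) % q)) hprs ?_) ?_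
    · have h1 := poly_pow2 (UPoly.length hvl)
      fun_prop
    · have h1 : NPC.Poly (fun x : List Bool × ℕ => RR (x.1, x.2 - 1)) :=
        hRRP.comp (f := fun x : List Bool × ℕ => (x.1, x.2 - 1)) (by fun_prop)
      fun_prop
    · intro x e he
      obtain ⟨q, hq, rfl⟩ := List.mem_map.1 he
      obtain ⟨h1, h2, h3⟩ := mem_prs.1 hq
      exact ⟨h3.pos, h1.le⟩
  refine hfin.congr fun x => ?_
  -- correctness
  set m := mm x with hm
  have hsz : sz (rf (g x)) + sz (ro (g x)) + sz (vl (g x)) + 10 + c0 ≤ m := by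
    have h1 := hr1 x
    have h2 := sz_listBool_le x
    have h3 := eval_mono r1 h2
    simp only [sz_pair] at h1
    rw [hm, hmm]
    simp only
    omega
  have hn : (vl (g x)).length < sz (vl (g x)) := length_lt_sz _
  have hpow := hc0 m (by omega)
  rw [Polynomial.eval_add] at hpow
  have hPDQ : (PDX P c).eval m = 2 * ((PMX P c).eval m + m + 3 + 4) ^ 2 + 1 := by
    simp [PDX, PAX]
  have h2M : 2 * (PX P c).eval m ^ 2 < 2 ^ m := by
    have h1 : 2 * (PX P c).eval m ^ 2 = (Polynomial.C 2 * PX P c ^ 2).eval m := by simp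
    omega
  have hdegleaf : ((rf (g x)).map List.length).sum < m := by
    have key : ∀ F : List (List (Bool × ℕ)), (F.map List.length).sum + 1 ≤ sz F := by
      intro F
      induction F with
      | nil => simp
      | cons c F ih =>
        have := length_lt_sz c
        simp only [List.map_cons, List.sum_cons, sz_list_cons]
        omega
    have := key (rf (g x))
    omega
  refine crt_eq (fun e he => ?_) ?_ (Nat.lt_succ_of_le (satCount_le _)) ?_
  · obtain ⟨q, hq, rfl⟩ := List.mem_map.1 he
    obtain ⟨h1, h2, h3⟩ := mem_prs.1 hq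
    refine ⟨h3, h1.le, ?_⟩
    obtain ⟨p, rfl⟩ : ∃ p, q = p + 1 := ⟨q - 1, by have := h3.pos; omega⟩
    have : Fact (p + 1).Prime := ⟨h3⟩
    have hrc := runX_correct (P := P) (gg := gg) hpred (m := m) (p := p)
      (n := (vl (g x)).length) (D := (PDX P c).eval m) (F := rf (g x)) (os0 := ro (g x))
      (by omega) (by omega) (by omega) h2M (by omega) (by omega) (by omega) (ro_idx _) hdegleaf
    rw [vS_rf] at hrc
    have h4 := (ZMod.natCast_eq_natCast_iff' _ _ _).1 hrc
    simp only [Nat.add_sub_cancel]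
    exact h4.symm
  · rw [List.map_map]
    have e : (Prod.fst ∘ fun q => (q, RR (x, q - 1) % q)) = id := by
      funext q
      rfl
    rw [e, List.map_id]
    exact nodup_prs _ _
  · rw [List.length_map, hPDQ]
    have h1 := length_prs (M := (PMX P c).eval m) (m := m)
    calc 2 ^ (vl (g x)).length + 1 ≤ 2 ^ ((vl (g x)).length + 1) := by
          rw [pow_succ]
          have := Nat.one_le_two_pow (n := (vl (g x)).length)
          omega
      _ ≤ _ := Nat.pow_le_pow_right (by norm_num) (by omega)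

theorem fp_of_excludes {γ : List Bool → Bool} {c : ℕ} (h : Excludes γ c (LX γ c))
    {f : List Bool → ℕ} (hf : SharpP f) : FP f := by
  obtain ⟨V, p, hV, hf⟩ := hf
  obtain ⟨G, hG, hGf⟩ := parsimonious hV p
  have h1 : NPC.Poly G := PC.comp hG Cnt.pc_raw
  have h2 := satCount_of_excludes h h1
  exact fp_of_poly (h2.congr fun x => by rw [hf x, ← hGf x])

end Pool.Agent.Helper70K1.BX
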